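import Mathlib

/-!
# Tight Hamilton cycles when the number of vertices is close to twice the uniformity: counting
-/

namespace Pool.Agent.Helper88_Tight

set_option linter.unusedSectionVars false

open Finset

variable {V : Type} [DecidableEq V] [Fintype V]

/-- Every set of `k - 1` vertices has at most `d` completions to a member of `B`. -/
def Cod (B : Finset (Finset V)) (k d : ℕ) : Prop :=
  ∀ S : Finset V, S.card + 1 = k → (univ.filter fun v => v ∉ S ∧ insert v S ∈ B).card ≤ d

section Count

variable {P : Type} [DecidableEq P] [Fintype P]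

theorem image_swap (A : Finset P) (q r : P) (h : q ∈ A ↔ r ∈ A) (σ : P ≃ V) :
    A.image ((Equiv.swap q r).trans σ) = A.image σ := by
  have key : A.image (Equiv.swap q r) = A := by
    apply Finset.eq_of_subset_of_card_le
    · intro x hx
      obtain ⟨y, hy, rfl⟩ := Finset.mem_image.1 hx
      by_cases h1 : y = q
      · subst h1
        rw [Equiv.swap_apply_left]
        exact h.1 hy
      · by_cases h2 : y = r
        · subst h2
          rw [Equiv.swap_apply_right]
          exact h.2 hy
        · rwa [Equiv.swap_apply_of_ne_of_ne h1 h2]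
    · rw [Finset.card_image_of_injective _ (Equiv.injective _)]
  calc A.image ((Equiv.swap q r).trans σ) = (A.image (Equiv.swap q r)).image σ := by
        rw [Finset.image_image]
        rfl
    _ = A.image σ := by rw [key]

theorem image_swap_insert (A : Finset P) (q r : P) (hq : q ∈ A) (hr : r = q ∨ r ∉ A)
    (σ : P ≃ V) :
    A.image ((Equiv.swap q r).trans σ) = insert (σ r) ((A.erase q).image σ) := by
  conv_lhs => rw [← Finset.insert_erase hq]
  rw [Finset.image_insert]
  have h1 : (Equiv.swap q r).trans σ q = σ r := by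
    rw [Equiv.trans_apply, Equiv.swap_apply_left]
  rw [h1]
  congr 1
  apply Finset.image_congr
  intro p hp
  rw [Finset.mem_coe, Finset.mem_erase] at hp
  have h2 : p ≠ r := by
    rcases hr with rfl | hr
    · exact hp.1
    · intro h
      exact hr (h ▸ hp.2)
  rw [Equiv.trans_apply, Equiv.swap_apply_of_ne_of_ne hp.1 h2]

/-- The counting lemma: averaging over the swaps of the position `q` with the positions in `Q`. -/
theorem swap_count (B : Finset (Finset V)) (k d : ℕ) (hB : Cod B k d)
    (Y : Finset (P ≃ V)) (q : P) (Q A : Finset P) (hq : q ∈ A) (hA : A.card = k)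
    (hQ : ∀ r ∈ Q, r = q ∨ r ∉ A)
    (hY : ∀ σ ∈ Y, ∀ r ∈ Q, (Equiv.swap q r).trans σ ∈ Y) :
    (Y.filter fun σ : P ≃ V => A.image σ ∈ B).card * Q.card ≤ Y.card * d := by
  set X := Y.filter fun σ : P ≃ V => A.image σ ∈ B with hX
  set T := (Y ×ˢ Q).filter
    (fun x : (P ≃ V) × P => A.image ((Equiv.swap q x.2).trans x.1) ∈ B) with hT
  have h1 : (X ×ˢ Q).card ≤ T.card := by
    refine Finset.card_le_card_of_injOn (fun x => ((Equiv.swap q x.2).trans x.1, x.2)) ?_ ?_
    · rintro ⟨σ, r⟩ hx
      rw [Finset.mem_coe, Finset.mem_product] at hx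
      rw [Finset.mem_coe, hT, Finset.mem_filter, Finset.mem_product]
      obtain ⟨hσ, hr⟩ := hx
      simp only at hσ hr ⊢
      rw [hX, Finset.mem_filter] at hσ
      refine ⟨⟨hY σ hσ.1 r hr, hr⟩, ?_⟩
      have : (Equiv.swap q r).trans ((Equiv.swap q r).trans σ) = σ := by
        ext x
        simp
      rw [this]
      exact hσ.2
    · rintro ⟨σ, r⟩ _ ⟨σ', r'⟩ _ h
      simp only [Prod.mk.injEq] at h
      obtain ⟨h1, h2⟩ := h
      subst h2
      have h3 : σ = σ' := by
        apply Equiv.ext
        intro x
        have h4 := congrArg (fun e : P ≃ V => e ((Equiv.swap q r) x)) h1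
        simpa using h4
      rw [h3]
  have h2 : T.card ≤ Y.card * d := by
    have h3 : T.card = ∑ ρ ∈ Y, (Q.filter fun r => A.image ((Equiv.swap q r).trans ρ) ∈ B).card := by
      rw [hT, Finset.card_filter, Finset.sum_product]
      refine Finset.sum_congr rfl fun ρ _ => ?_
      rw [Finset.card_filter]
    rw [h3]
    calc ∑ ρ ∈ Y, (Q.filter fun r => A.image ((Equiv.swap q r).trans ρ) ∈ B).card
        ≤ ∑ ρ ∈ Y, d := by
          refine Finset.sum_le_sum fun ρ _ => ?_
          have hS : ((A.erase q).image ρ).card + 1 = k := by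
            rw [Finset.card_image_of_injective _ ρ.injective, Finset.card_erase_of_mem hq, hA]
            have : 0 < A.card := Finset.card_pos.2 ⟨q, hq⟩
            omega
          refine le_trans (Finset.card_le_card_of_injOn (fun r => ρ r) ?_ ?_) (hB _ hS)
          · intro r hr
            rw [Finset.mem_coe, Finset.mem_filter] at hr
            rw [Finset.mem_coe, Finset.mem_filter]
            refine ⟨Finset.mem_univ _, ?_, ?_⟩
            · intro h
              obtain ⟨p, hp, hpr⟩ := Finset.mem_image.1 h
              have : p = r := ρ.injective hpr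
              subst this
              rw [Finset.mem_erase] at hp
              rcases hQ p hr.1 with h | h
              · exact hp.1 h
              · exact h hp.2
            · rw [← image_swap_insert A q r hq (hQ r hr.1) ρ]
              exact hr.2
          · intro r _ r' _ h
            exact ρ.injective h
      _ = Y.card * d := by rw [Finset.sum_const, smul_eq_mul]
  rw [Finset.card_product] at h1
  exact h1.trans h2

end Count

/-! ### Positions relative to a base point -/

section Pos

variable {n : ℕ} [NeZero n]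

/-- The positions `p` whose distance `f - p` lies in `U`. -/
def pos (f : ZMod n) (U : Finset ℕ) : Finset (ZMod n) := univ.filter fun p => (f - p).val ∈ U

theorem mem_pos {f p : ZMod n} {U : Finset ℕ} : p ∈ pos f U ↔ (f - p).val ∈ U := by
  simp [pos]

theorem card_pos (f : ZMod n) {U : Finset ℕ} (hU : U ⊆ range n) : (pos f U).card = U.card := by
  refine Finset.card_bij (fun p _ => (f - p).val) ?_ ?_ ?_
  · intro p hp
    exact mem_pos.1 hp
  · intro p _ q _ h
    have h1 := ZMod.val_injective n h
    exact sub_right_injective h1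
  · intro u hu
    refine ⟨f - (u : ZMod n), ?_, ?_⟩
    · rw [mem_pos, sub_sub_cancel, ZMod.val_cast_of_lt (Finset.mem_range.1 (hU hu))]
      exact hu
    · rw [sub_sub_cancel, ZMod.val_cast_of_lt (Finset.mem_range.1 (hU hu))]

/-- The orders for which the positions `pos f U` form a bad set. -/
def Ev (B : Finset (Finset V)) (f : ZMod n) (U : Finset ℕ) : Finset (ZMod n ≃ V) :=
  univ.filter fun σ => (pos f U).image σ ∈ B

theorem mem_Ev {B : Finset (Finset V)} {f : ZMod n} {U : Finset ℕ} {σ : ZMod n ≃ V} :
    σ ∈ Ev B f U ↔ (pos f U).image σ ∈ B := by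
  simp [Ev]

/-- the second event costs a factor `d / |UQ|`. -/
theorem ev_count (B : Finset (Finset V)) (k d : ℕ) (hB : Cod B k d) (f : ZMod n)
    (Y : Finset (ZMod n ≃ V)) (U' UQ : Finset ℕ) (u0 : ℕ) (hU' : U' ⊆ range n)
    (hQn : UQ ⊆ range n)
    (hu0 : u0 ∈ U') (hc : U'.card = k) (hQ : ∀ r ∈ UQ, r = u0 ∨ r ∉ U')
    (hY : ∀ σ ∈ Y, ∀ r ∈ UQ, (Equiv.swap (f - (u0 : ZMod n)) (f - (r : ZMod n))).trans σ ∈ Y) :
    (Y.filter fun σ : ZMod n ≃ V => (pos f U').image σ ∈ B).card * UQ.card ≤ Y.card * d := by
  have hu0n : u0 < n := Finset.mem_range.1 (hU' hu0)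
  have h := swap_count B k d hB Y (f - (u0 : ZMod n)) (pos f UQ) (pos f U')
    (by rw [mem_pos, sub_sub_cancel, ZMod.val_cast_of_lt hu0n]; exact hu0)
    (by rw [card_pos f hU', hc]) (by
      intro r hr
      rw [mem_pos] at hr
      rcases hQ _ hr with h | h
      · left
        rw [← h, ZMod.natCast_zmod_val, sub_sub_cancel]
      · right
        rw [mem_pos]
        exact h) (by
      intro σ hσ r hr
      rw [mem_pos] at hr
      have := hY σ hσ _ hr
      rwa [ZMod.natCast_zmod_val, sub_sub_cancel] at this)
  rwa [card_pos f hQn] at h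

theorem swap_mem_Ev {B : Finset (Finset V)} {f : ZMod n} {U : Finset ℕ} (u0 r : ℕ)
    (hu0 : u0 < n) (hr : r < n) (h : u0 ∈ U ↔ r ∈ U) (σ : ZMod n ≃ V) (hσ : σ ∈ Ev B f U) :
    (Equiv.swap (f - (u0 : ZMod n)) (f - (r : ZMod n))).trans σ ∈ Ev B f U := by
  rw [mem_Ev] at hσ ⊢
  rw [image_swap]
  · exact hσ
  · rw [mem_pos, mem_pos, sub_sub_cancel, sub_sub_cancel, ZMod.val_cast_of_lt hu0,
      ZMod.val_cast_of_lt hr]
    exact h

theorem ev_single (B : Finset (Finset V)) (k d : ℕ) (hk : 1 ≤ k) (hkn : k ≤ n) (hB : Cod B k d)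
    (f : ZMod n) (U : Finset ℕ) (hU : U ⊆ range n) (hc : U.card = k) :
    (Ev B f U).card * (n - k + 1) ≤ (univ : Finset (ZMod n ≃ V)).card * d := by
  obtain ⟨u0, hu0⟩ : U.Nonempty := by
    rw [← Finset.card_pos]
    omega
  have h := ev_count B k d hB f (univ : Finset (ZMod n ≃ V)) U (insert u0 (range n \ U)) u0 hU
    (by
      intro x hx
      rw [Finset.mem_insert] at hx
      rcases hx with rfl | hx
      · exact hU hu0
      · exact (Finset.mem_sdiff.1 hx).1) hu0 hc (by
      intro r hr
      rw [Finset.mem_insert] at hr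
      rcases hr with rfl | hr
      · exact Or.inl rfl
      · exact Or.inr (Finset.mem_sdiff.1 hr).2) (fun _ _ _ _ => Finset.mem_univ _)
  have h2 : (insert u0 (range n \ U)).card = n - k + 1 := by
    rw [Finset.card_insert_of_notMem (fun h => (Finset.mem_sdiff.1 h).2 hu0),
      Finset.card_sdiff_of_subset hU, hc, Finset.card_range]
  rw [h2] at h
  exact h

end Pos

end Pool.Agent.Helper88_Tight
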