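import Pool.Agent.Helper88_Tight.Small

/-!
# Tight Hamilton cycles when the number of vertices is close to twice the uniformity: conclusion
-/

namespace Pool.Agent.Helper88_Tight

open Finset

theorem window_eq {n : ℕ} [NeZero n] (k : ℕ) (hk : 1 ≤ k) (hkn : k ≤ n) (i : ZMod n) :
    pos (i + ((k - 1 : ℕ) : ZMod n)) (range k) =
      (range k).image (fun j : ℕ => i + (j : ZMod n)) := by
  ext p
  rw [mem_pos, Finset.mem_range, Finset.mem_image]
  constructor
  · intro h
    refine ⟨k - 1 - (i + ((k - 1 : ℕ) : ZMod n) - p).val, Finset.mem_range.2 (by omega), ?_⟩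
    rw [Nat.cast_sub (by omega), ZMod.natCast_zmod_val]
    ring
  · rintro ⟨j, hj, rfl⟩
    rw [Finset.mem_range] at hj
    have : i + ((k - 1 : ℕ) : ZMod n) - (i + (j : ZMod n)) = ((k - 1 - j : ℕ) : ZMod n) := by
      rw [Nat.cast_sub (show j ≤ k - 1 by omega)]
      ring
    rw [this, ZMod.val_cast_of_lt (by omega)]
    omega

theorem main (k n : ℕ) (hk : 3 ≤ k) (hkn : k ≤ n)
    (hr : n ≤ 2 * k + 1 ∨ 8 * (n / 2 + 1 - k) ^ 2 < k)
    (V : Type) [Fintype V] [DecidableEq V] (hV : Fintype.card V = n)
    (E : Set (Finset V))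
    (hδ : ∀ S : Finset V, S.card = k - 1 → n ≤ 2 * {v : V | v ∉ S ∧ insert v S ∈ E}.ncard) :
    ∃ σ : ZMod n ≃ V, ∀ i : ZMod n,
      (range k).image (fun j : ℕ => σ (i + (j : ZMod n))) ∈ E := by
  classical
  have hn0 : NeZero n := ⟨by omega⟩
  -- the non-edges
  set B : Finset (Finset V) := (univ.powersetCard k).filter fun e => e ∉ E with hB
  have hcod : Cod B k (n / 2 + 1 - k) := by
    intro S hS
    have h1 := hδ S (by omega)
    have h2 : ({v : V | v ∉ S ∧ insert v S ∈ E} : Set V) =
        ((univ.filter fun v => v ∉ S ∧ insert v S ∈ E : Finset V) : Set V) := by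
      ext v
      simp
    rw [h2, Set.ncard_coe_finset] at h1
    have h3 : (univ.filter fun v => v ∉ S ∧ insert v S ∈ B).card +
        (univ.filter fun v => v ∉ S ∧ insert v S ∈ E).card ≤ (univ \ S).card := by
      rw [← Finset.card_union_of_disjoint]
      · apply Finset.card_le_card
        intro v hv
        rw [Finset.mem_union] at hv
        rw [Finset.mem_sdiff]
        rcases hv with h | h
        · exact ⟨Finset.mem_univ _, (Finset.mem_filter.1 h).2.1⟩
        · exact ⟨Finset.mem_univ _, (Finset.mem_filter.1 h).2.1⟩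
      · rw [Finset.disjoint_left]
        intro v h h'
        rw [Finset.mem_filter, hB, Finset.mem_filter] at h
        rw [Finset.mem_filter] at h'
        exact h.2.2.2 h'.2.2
    have h4 : (univ \ S).card = n - S.card := by
      rw [Finset.card_sdiff_of_subset (Finset.subset_univ _), Finset.card_univ, hV]
    omega
  -- translation
  have trans : (∃ σ : ZMod n ≃ V, ∀ f : ZMod n, (pos f (range k)).image σ ∉ B) →
      ∃ σ : ZMod n ≃ V, ∀ i : ZMod n,
        (range k).image (fun j : ℕ => σ (i + (j : ZMod n))) ∈ E := by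
    rintro ⟨σ, hσ⟩
    refine ⟨σ, fun i => ?_⟩
    have h := hσ (i + ((k - 1 : ℕ) : ZMod n))
    rw [hB, Finset.mem_filter, Finset.mem_powersetCard] at h
    have hcard : ((pos (i + ((k - 1 : ℕ) : ZMod n)) (range k)).image σ).card = k := by
      rw [Finset.card_image_of_injective _ σ.injective, card_pos, Finset.card_range]
      intro x hx
      rw [Finset.mem_range] at hx ⊢
      omega
    have h2 : (pos (i + ((k - 1 : ℕ) : ZMod n)) (range k)).image σ ∈ E := by
      by_contra hne
      exact h ⟨⟨Finset.subset_univ _, hcard⟩, hne⟩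
    rw [window_eq k (by omega) hkn i, Finset.image_image] at h2
    exact h2
  apply trans
  rcases lt_or_ge n (2 * k) with hlt | hge
  · -- complete hypergraph
    have hd : n / 2 + 1 - k = 0 := by omega
    rw [hd] at hcod
    obtain ⟨σ⟩ : Nonempty (ZMod n ≃ V) := Fintype.card_eq.1 (by rw [ZMod.card, hV])
    refine ⟨σ, fun f h => ?_⟩
    have h' := h
    rw [hB, Finset.mem_filter, Finset.mem_powersetCard] at h'
    obtain ⟨v, hv⟩ : ((pos f (range k)).image σ).Nonempty := by
      rw [← Finset.card_pos, h'.1.2]
      omega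
    have h1 := hcod (((pos f (range k)).image σ).erase v) (by
      rw [Finset.card_erase_of_mem hv, h'.1.2]
      omega)
    rw [Nat.le_zero, Finset.card_eq_zero] at h1
    have h2 : v ∈ (∅ : Finset V) := by
      rw [← h1, Finset.mem_filter]
      refine ⟨Finset.mem_univ _, Finset.notMem_erase _ _, ?_⟩
      rw [Finset.insert_erase hv]
      exact h
    exact absurd h2 (Finset.notMem_empty _)
  · rcases Nat.lt_or_ge (2 * k + 1) n with h1 | h1
    · have hr' : 8 * (n / 2 + 1 - k) ^ 2 < k := by
        rcases hr with h | h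
        · omega
        · exact h
      exact large B k (n / 2 + 1 - k) hcod hk hge (by omega) hr' hV
    · have hd : n / 2 + 1 - k = 1 := by omega
      rw [hd] at hcod
      rcases Nat.lt_or_ge (2 * k) n with h2 | h2
      · obtain rfl : n = 2 * k + 1 := by omega
        exact small_odd k hk B hcod hV
      · obtain rfl : n = 2 * k := by omega
        exact small_even k hk B hcod hV

end Pool.Agent.Helper88_Tight
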