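import Pool.Agent.Helper88_Tight.Main

/-!
# Tight Hamilton cycles when the number of vertices is close to twice the uniformity: the proof
-/

namespace Pool.Agent.Helper88_Tight

set_option linter.unusedSectionVars false

open Finset

variable {V : Type} [DecidableEq V] [Fintype V]

section W

variable (n k : ℕ)

/-- last element replaced by its successor -/
def W10 : Finset ℕ := insert (n - 1) (Ico 1 k)
/-- first element replaced by its predecessor -/
def W01 : Finset ℕ := insert k (range (k - 1))
/-- both -/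
def W11 : Finset ℕ := insert (n - 1) (insert k (Ico 1 (k - 1)))

variable {n k}

theorem wmod_ff (hk : 2 ≤ k) (hn : 2 * k ≤ n) (a b : Prop) [Decidable a] [Decidable b]
    (ha : ¬ a) (hb : ¬ b) : wmod n k a b = range k := by
  ext u
  simp only [wmod, Finset.mem_filter, Finset.mem_range, ha, hb, false_and, not_false_eq_true,
    and_true, or_false]
  omega

theorem wmod_tf (hk : 2 ≤ k) (hn : 2 * k ≤ n) (a b : Prop) [Decidable a] [Decidable b]
    (ha : a) (hb : ¬ b) : wmod n k a b = W10 n k := by
  ext u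
  simp only [wmod, W10, Finset.mem_filter, Finset.mem_range, Finset.mem_insert, Finset.mem_Ico,
    ha, hb, false_and, not_false_eq_true, and_true, or_false, true_and]
  omega

theorem wmod_ft (hk : 2 ≤ k) (hn : 2 * k ≤ n) (a b : Prop) [Decidable a] [Decidable b]
    (ha : ¬ a) (hb : b) : wmod n k a b = W01 k := by
  ext u
  simp only [wmod, W01, Finset.mem_filter, Finset.mem_range, Finset.mem_insert, ha, hb,
    false_and, not_false_eq_true, false_or, true_and]
  omega

theorem wmod_tt (hk : 2 ≤ k) (hn : 2 * k ≤ n) (a b : Prop) [Decidable a] [Decidable b]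
    (ha : a) (hb : b) : wmod n k a b = W11 n k := by
  ext u
  simp only [wmod, W11, Finset.mem_filter, Finset.mem_range, Finset.mem_insert, Finset.mem_Ico,
    ha, hb, true_and]
  omega

end W

section Large

variable {n : ℕ} [NeZero n]

/-- the pairs of events which have to be avoided -/
def Bad2 (B : Finset (Finset V)) (f : ZMod n) (U U' : Finset ℕ) : Finset (ZMod n ≃ V) :=
  (Ev B f U).filter fun σ : ZMod n ≃ V => (pos f U').image σ ∈ B

theorem mem_Bad2 {B : Finset (Finset V)} {f : ZMod n} {U U' : Finset ℕ} {σ : ZMod n ≃ V} :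
    σ ∈ Bad2 B f U U' ↔ (pos f U).image σ ∈ B ∧ (pos f U').image σ ∈ B := by
  rw [Bad2, Finset.mem_filter, mem_Ev]

theorem bad2_count (B : Finset (Finset V)) (k d : ℕ) (hB : Cod B k d) (f : ZMod n)
    (U U' UQ : Finset ℕ) (u0 : ℕ) (hU' : U' ⊆ range n) (hQn : UQ ⊆ range n)
    (hu0 : u0 ∈ U') (hc : U'.card = k) (hQ : ∀ r ∈ UQ, r = u0 ∨ r ∉ U')
    (hU : ∀ r ∈ UQ, (u0 ∈ U ↔ r ∈ U)) :
    (Bad2 B f U U').card * UQ.card ≤ (Ev B f U).card * d :=
  ev_count B k d hB f (Ev B f U) U' UQ u0 hU' hQn hu0 hc hQ fun σ hσ r hr =>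
    swap_mem_Ev u0 r (Finset.mem_range.1 (hU' hu0)) (Finset.mem_range.1 (hQn hr)) (hU r hr) σ hσ

theorem b1 (B : Finset (Finset V)) (k d : ℕ) (hB : Cod B k d) (hk : 2 ≤ k) (hn : 2 * k ≤ n)
    (f : ZMod n) :
    (Bad2 B f (range k) (W10 n k)).card * (n - k) ≤ (Ev B f (range k)).card * d := by
  have h := bad2_count B k d hB f (range k) (W10 n k) (Ico k n) (n - 1)
    (by
      intro x hx
      rw [W10, Finset.mem_insert, Finset.mem_Ico] at hx
      rw [Finset.mem_range]
      omega)
    (by
      intro x hx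
      rw [Finset.mem_Ico] at hx
      exact Finset.mem_range.2 hx.2)
    (by rw [W10]; exact Finset.mem_insert_self _ _)
    (by
      rw [W10, Finset.card_insert_of_notMem, Nat.card_Ico]
      · omega
      · rw [Finset.mem_Ico]
        omega)
    (by
      intro r hr
      rw [Finset.mem_Ico] at hr
      rw [W10, Finset.mem_insert, Finset.mem_Ico]
      omega)
    (by
      intro r hr
      rw [Finset.mem_Ico] at hr
      rw [Finset.mem_range, Finset.mem_range]
      omega)
  rwa [Nat.card_Ico] at h

theorem b4 (B : Finset (Finset V)) (k d : ℕ) (hB : Cod B k d) (hk : 2 ≤ k) (hn : 2 * k ≤ n)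
    (f : ZMod n) :
    (Bad2 B f (range k) (insert (n - 1) (range (k - 1)))).card * (n - k) ≤
      (Ev B f (range k)).card * d := by
  have h := bad2_count B k d hB f (range k) (insert (n - 1) (range (k - 1))) (Ico k n) (n - 1)
    (by
      intro x hx
      rw [Finset.mem_insert, Finset.mem_range] at hx
      rw [Finset.mem_range]
      omega)
    (by
      intro x hx
      rw [Finset.mem_Ico] at hx
      exact Finset.mem_range.2 hx.2)
    (Finset.mem_insert_self _ _)
    (by
      rw [Finset.card_insert_of_notMem, Finset.card_range]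
      · omega
      · rw [Finset.mem_range]
        omega)
    (by
      intro r hr
      rw [Finset.mem_Ico] at hr
      rw [Finset.mem_insert, Finset.mem_range]
      omega)
    (by
      intro r hr
      rw [Finset.mem_Ico] at hr
      rw [Finset.mem_range, Finset.mem_range]
      omega)
  rwa [Nat.card_Ico] at h

theorem b3 (B : Finset (Finset V)) (k d : ℕ) (hB : Cod B k d) (hk : 3 ≤ k) (hn : 2 * k ≤ n)
    (f : ZMod n) :
    (Bad2 B f (range k) (W11 n k)).card * (n - (k + 1)) ≤ (Ev B f (range k)).card * d := by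
  have h := bad2_count B k d hB f (range k) (W11 n k) (Ico (k + 1) n) (n - 1)
    (by
      intro x hx
      rw [W11, Finset.mem_insert, Finset.mem_insert, Finset.mem_Ico] at hx
      rw [Finset.mem_range]
      omega)
    (by
      intro x hx
      rw [Finset.mem_Ico] at hx
      exact Finset.mem_range.2 hx.2)
    (by rw [W11]; exact Finset.mem_insert_self _ _)
    (by
      rw [W11, Finset.card_insert_of_notMem, Finset.card_insert_of_notMem, Nat.card_Ico]
      · omega
      · rw [Finset.mem_Ico]
        omega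
      · rw [Finset.mem_insert, Finset.mem_Ico]
        omega)
    (by
      intro r hr
      rw [Finset.mem_Ico] at hr
      rw [W11, Finset.mem_insert, Finset.mem_insert, Finset.mem_Ico]
      omega)
    (by
      intro r hr
      rw [Finset.mem_Ico] at hr
      rw [Finset.mem_range, Finset.mem_range]
      omega)
  rwa [Nat.card_Ico] at h

theorem b2 (B : Finset (Finset V)) (k d : ℕ) (hB : Cod B k d) (hk : 2 ≤ k) (hn : 2 * k ≤ n)
    (f : ZMod n) :
    (Bad2 B f (Ico k (2 * k)) (W01 k)).card * k ≤ (Ev B f (Ico k (2 * k))).card * d := by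
  have h := bad2_count B k d hB f (Ico k (2 * k)) (W01 k) (Ico k (2 * k)) k
    (by
      intro x hx
      rw [W01, Finset.mem_insert, Finset.mem_range] at hx
      rw [Finset.mem_range]
      omega)
    (by
      intro x hx
      rw [Finset.mem_Ico] at hx
      rw [Finset.mem_range]
      omega)
    (by rw [W01]; exact Finset.mem_insert_self _ _)
    (by
      rw [W01, Finset.card_insert_of_notMem, Finset.card_range]
      · omega
      · rw [Finset.mem_range]
        omega)
    (by
      intro r hr
      rw [Finset.mem_Ico] at hr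
      rw [W01, Finset.mem_insert, Finset.mem_range]
      omega)
    (by
      intro r hr
      rw [Finset.mem_Ico] at hr
      rw [Finset.mem_Ico, Finset.mem_Ico]
      omega)
  rw [Nat.card_Ico] at h
  have e : 2 * k - k = k := by omega
  rwa [e] at h

open Classical in
theorem tau_good (B : Finset (Finset V)) (k : ℕ) (hk : 2 ≤ k) (hn : 2 * k ≤ n)
    (C : Set (ZMod n)) (hC : ∀ c, ¬ (c ∈ C ∧ c + 1 ∈ C)) (f : ZMod n) (σ : ZMod n ≃ V)
    (h11 : f ∈ C → f - (k : ZMod n) ∈ C → (pos f (W11 n k)).image σ ∉ B)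
    (h10 : f ∈ C → f - (k : ZMod n) ∉ C → (pos f (W10 n k)).image σ ∉ B)
    (h01 : f ∉ C → f - (k : ZMod n) ∈ C → (pos f (W01 k)).image σ ∉ B)
    (h00 : f ∉ C → f - (k : ZMod n) ∉ C → (pos f (range k)).image σ ∉ B) :
    (pos f (range k)).image (((tau_invol C hC).toPerm).trans σ) ∉ B := by
  rw [tau_image C hC k hk hn f σ]
  by_cases ha : f ∈ C
  · by_cases hb : f - (k : ZMod n) ∈ C
    · rw [wmod_tt hk hn _ _ ha hb]
      exact h11 ha hb
    · rw [wmod_tf hk hn _ _ ha hb]
      exact h10 ha hb
  · by_cases hb : f - (k : ZMod n) ∈ C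
    · rw [wmod_ft hk hn _ _ ha hb]
      exact h01 ha hb
    · rw [wmod_ff hk hn _ _ ha hb]
      exact h00 ha hb

theorem large (B : Finset (Finset V)) (k d : ℕ) (hB : Cod B k d) (hk : 3 ≤ k) (hn : 2 * k ≤ n)
    (hd : 1 ≤ d) (hdk : 8 * d ^ 2 < k) (hV : Fintype.card V = n) :
    ∃ σ : ZMod n ≃ V, ∀ f : ZMod n, (pos f (range k)).image σ ∉ B := by
  classical
  set N := (univ : Finset (ZMod n ≃ V)).card with hN
  have hNpos : 0 < N := by
    rw [hN, Finset.card_pos, Finset.univ_nonempty_iff]
    exact Fintype.card_eq.1 (by rw [ZMod.card, hV])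
  set S1 : ZMod n → Finset (ZMod n ≃ V) := fun f => Bad2 B f (range k) (W10 n k) with hS1
  set S2 : ZMod n → Finset (ZMod n ≃ V) := fun f => Bad2 B f (Ico k (2 * k)) (W01 k) with hS2
  set S3 : ZMod n → Finset (ZMod n ≃ V) := fun f => Bad2 B f (range k) (W11 n k) with hS3
  set S4 : ZMod n → Finset (ZMod n ≃ V) := fun f =>
    Bad2 B f (range k) (insert (n - 1) (range (k - 1))) with hS4
  obtain ⟨m, hm⟩ : ∃ m, n = m + k := ⟨n - k, by omega⟩
  have hmk : k ≤ m := by omega
  have e1 : n - k = m := by omega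
  have e2 : n - (k + 1) = m - 1 := by omega
  have hy : ∀ f, (Ev B f (range k) : Finset (ZMod n ≃ V)).card * (m + 1) ≤ N * d := by
    intro f
    have := ev_single B k d (by omega) (by omega) hB f (range k)
      (by
        intro x hx
        rw [Finset.mem_range] at hx ⊢
        omega) (Finset.card_range k)
    rwa [e1] at this
  have hy' : ∀ f, (Ev B f (Ico k (2 * k)) : Finset (ZMod n ≃ V)).card * (m + 1) ≤ N * d := by
    intro f
    have := ev_single B k d (by omega) (by omega) hB f (Ico k (2 * k))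
      (by
        intro x hx
        rw [Finset.mem_Ico] at hx
        rw [Finset.mem_range]
        omega) (by rw [Nat.card_Ico]; omega)
    rwa [e1] at this
  -- the common bound
  have common : ∀ s y q : ℕ, k - 1 ≤ q → s * q ≤ y * d → y * (m + 1) ≤ N * d →
      s * ((m + 1) * (k - 1)) ≤ N * d ^ 2 := by
    intro s y q hq h1 h2
    calc s * ((m + 1) * (k - 1)) ≤ s * ((m + 1) * q) :=
          Nat.mul_le_mul_left _ (Nat.mul_le_mul_left _ hq)
      _ = (s * q) * (m + 1) := by ring
      _ ≤ (y * d) * (m + 1) := Nat.mul_le_mul_right _ h1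
      _ = (y * (m + 1)) * d := by ring
      _ ≤ (N * d) * d := Nat.mul_le_mul_right _ h2
      _ = N * d ^ 2 := by ring
  have c1 : ∀ f, (S1 f).card * ((m + 1) * (k - 1)) ≤ N * d ^ 2 := by
    intro f
    have := b1 B k d hB (by omega) hn f
    rw [e1] at this
    exact common _ _ m (by omega) this (hy f)
  have c4 : ∀ f, (S4 f).card * ((m + 1) * (k - 1)) ≤ N * d ^ 2 := by
    intro f
    have := b4 B k d hB (by omega) hn f
    rw [e1] at this
    exact common _ _ m (by omega) this (hy f)
  have c3 : ∀ f, (S3 f).card * ((m + 1) * (k - 1)) ≤ N * d ^ 2 := by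
    intro f
    have := b3 B k d hB hk hn f
    rw [e2] at this
    exact common _ _ (m - 1) (by omega) this (hy f)
  have c2 : ∀ f, (S2 f).card * ((m + 1) * (k - 1)) ≤ N * d ^ 2 := by
    intro f
    have := b2 B k d hB (by omega) hn f
    exact common _ _ k (by omega) this (hy' f)
  -- there is an order outside of all bad events
  obtain ⟨σ, hσ⟩ : ∃ σ : ZMod n ≃ V, ∀ f, σ ∉ S1 f ∧ σ ∉ S2 f ∧ σ ∉ S3 f ∧ σ ∉ S4 f := by
    by_contra hcon
    push Not at hcon
    have hcov : (univ : Finset (ZMod n ≃ V)) ⊆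
        (univ : Finset (ZMod n)).biUnion fun f => (S1 f ∪ S2 f) ∪ (S3 f ∪ S4 f) := by
      intro σ _
      obtain ⟨f, hf⟩ := hcon σ
      rw [Finset.mem_biUnion]
      refine ⟨f, Finset.mem_univ _, ?_⟩
      rw [Finset.mem_union, Finset.mem_union, Finset.mem_union]
      by_contra h
      push Not at h
      exact h.2.2 (hf h.1.1 h.1.2 h.2.1)
    have h1 : N ≤ ∑ f : ZMod n, ((S1 f).card + (S2 f).card + ((S3 f).card + (S4 f).card)) := by
      refine (Finset.card_le_card hcov).trans (Finset.card_biUnion_le.trans ?_)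
      refine Finset.sum_le_sum fun f _ => ?_
      refine (Finset.card_union_le _ _).trans ?_
      exact Nat.add_le_add (Finset.card_union_le _ _) (Finset.card_union_le _ _)
    have h2 : N * ((m + 1) * (k - 1)) ≤ n * (4 * (N * d ^ 2)) := by
      calc N * ((m + 1) * (k - 1))
          ≤ (∑ f : ZMod n, ((S1 f).card + (S2 f).card + ((S3 f).card + (S4 f).card))) *
              ((m + 1) * (k - 1)) := Nat.mul_le_mul_right _ h1
        _ = ∑ f : ZMod n, ((S1 f).card + (S2 f).card + ((S3 f).card + (S4 f).card)) *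
              ((m + 1) * (k - 1)) := by rw [Finset.sum_mul]
        _ ≤ ∑ _f : ZMod n, 4 * (N * d ^ 2) := by
            refine Finset.sum_le_sum fun f _ => ?_
            have := c1 f
            have := c2 f
            have := c3 f
            have := c4 f
            nlinarith
        _ = n * (4 * (N * d ^ 2)) := by
            rw [Finset.sum_const, Finset.card_univ, ZMod.card, smul_eq_mul]
    have h3 : N * (4 * (n * d ^ 2)) < N * ((m + 1) * (k - 1)) := by
      apply Nat.mul_lt_mul_of_pos_left _ hNpos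
      have h4 : n < 2 * (m + 1) := by omega
      have h5 : 8 * d ^ 2 ≤ k - 1 := by omega
      have h6 : 0 < d ^ 2 := by positivity
      calc 4 * (n * d ^ 2) < 4 * ((2 * (m + 1)) * d ^ 2) := by
            apply Nat.mul_lt_mul_of_pos_left _ (by norm_num)
            exact Nat.mul_lt_mul_of_pos_right h4 h6
        _ = (m + 1) * (8 * d ^ 2) := by ring
        _ ≤ (m + 1) * (k - 1) := Nat.mul_le_mul_left _ h5
    have h4 : n * (4 * (N * d ^ 2)) = N * (4 * (n * d ^ 2)) := by ring
    omega
  -- repair
  set C : Set (ZMod n) := {f | (pos f (range k)).image σ ∈ B} with hCdef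
  have hC : ∀ c, ¬ (c ∈ C ∧ c + 1 ∈ C) := by
    rintro c ⟨h1, h2⟩
    apply (hσ c).2.2.2
    rw [hS4, mem_Bad2]
    refine ⟨h1, ?_⟩
    rw [← pos_shift1 c k (by omega) hn]
    exact h2
  refine ⟨((tau_invol C hC).toPerm).trans σ, fun f => ?_⟩
  refine tau_good B k (by omega) hn C hC f σ ?_ ?_ ?_ ?_
  · intro ha hb h
    apply (hσ f).2.2.1
    rw [hS3, mem_Bad2]
    exact ⟨ha, h⟩
  · intro ha _ h
    apply (hσ f).1
    rw [hS1, mem_Bad2]
    exact ⟨ha, h⟩
  · intro _ hb h
    apply (hσ f).2.1
    rw [hS2, mem_Bad2]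
    refine ⟨?_, h⟩
    rw [← pos_shiftk f k (by omega) hn]
    exact hb
  · intro ha _
    exact ha

end Large

end Pool.Agent.Helper88_Tight
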