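import Pool.Agent.Helper88_Tight.Count

/-!
# Tight Hamilton cycles when the number of vertices is close to twice the uniformity
-/

namespace Pool.Agent.Helper88_Tight

set_option linter.unusedSectionVars false

open Finset

variable {V : Type} [DecidableEq V] [Fintype V]

/-! ### windows -/

/-- the window with modified ends: `a` = the last element is replaced by its successor,
`b` = the first element is replaced by its predecessor -/
def wmod (n k : ℕ) (a b : Prop) [Decidable a] [Decidable b] : Finset ℕ :=
  (range n).filter fun u => (u < k ∧ ¬ (a ∧ u = 0) ∧ ¬ (b ∧ u + 1 = k)) ∨ (a ∧ u + 1 = n) ∨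
    (b ∧ u = k)

section Shift

variable {n : ℕ} [NeZero n]

theorem val_sub_nat (x : ZMod n) (m : ℕ) (hm : m < n) :
    (x - (m : ZMod n)).val = if m ≤ x.val then x.val - m else x.val + n - m := by
  have hx : ((x.val : ℕ) : ZMod n) = x := ZMod.natCast_zmod_val x
  have hlt := ZMod.val_lt x
  split_ifs with h
  · have : x - (m : ZMod n) = ((x.val - m : ℕ) : ZMod n) := by
      rw [Nat.cast_sub h, hx]
    rw [this, ZMod.val_cast_of_lt (by omega)]
  · have : x - (m : ZMod n) = ((x.val + n - m : ℕ) : ZMod n) := by
      rw [Nat.cast_sub (by omega), Nat.cast_add, hx, ZMod.natCast_self, add_zero]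
    rw [this, ZMod.val_cast_of_lt (by omega)]

theorem val_sub_one' (x : ZMod n) (hn : 1 < n) :
    (x - 1).val = if 1 ≤ x.val then x.val - 1 else x.val + n - 1 := by
  have := val_sub_nat x 1 hn
  rwa [Nat.cast_one] at this

theorem val_add_one' (x : ZMod n) (hn : 1 < n) :
    (x + 1).val = if x.val + 1 = n then 0 else x.val + 1 := by
  have hx : ((x.val : ℕ) : ZMod n) = x := ZMod.natCast_zmod_val x
  have hlt := ZMod.val_lt x
  split_ifs with h
  · have : x + 1 = ((x.val + 1 : ℕ) : ZMod n) := by rw [Nat.cast_add, hx, Nat.cast_one]
    rw [this, h, ZMod.natCast_self, ZMod.val_zero]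
  · have : x + 1 = ((x.val + 1 : ℕ) : ZMod n) := by rw [Nat.cast_add, hx, Nat.cast_one]
    rw [this, ZMod.val_cast_of_lt (by omega)]

theorem pos_shiftk (f : ZMod n) (k : ℕ) (hk : 1 ≤ k) (hn : 2 * k ≤ n) :
    pos (f - (k : ZMod n)) (range k) = pos f (Ico k (2 * k)) := by
  ext p
  rw [mem_pos, mem_pos, Finset.mem_range, Finset.mem_Ico]
  have h1 : f - (k : ZMod n) - p = (f - p) - (k : ZMod n) := by ring
  rw [h1, val_sub_nat _ k (by omega)]
  have := ZMod.val_lt (f - p)
  split_ifs <;> omega

theorem pos_shift1 (f : ZMod n) (k : ℕ) (hk : 1 ≤ k) (hn : 2 * k ≤ n) :
    pos (f + 1) (range k) = pos f (insert (n - 1) (range (k - 1))) := by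
  ext p
  rw [mem_pos, mem_pos, Finset.mem_range, Finset.mem_insert, Finset.mem_range]
  have h1 : f + 1 - p = (f - p) + 1 := by ring
  rw [h1, val_add_one' _ (by omega)]
  have := ZMod.val_lt (f - p)
  split_ifs <;> omega

open Classical in
/-- swap the positions `c, c+1` for all `c ∈ C` -/
noncomputable def tau (C : Set (ZMod n)) (p : ZMod n) : ZMod n :=
  if p ∈ C then p + 1 else if p - 1 ∈ C then p - 1 else p

theorem tau_invol (C : Set (ZMod n)) (hC : ∀ c, ¬ (c ∈ C ∧ c + 1 ∈ C)) :
    Function.Involutive (tau C) := by
  intro p
  unfold tau
  by_cases h1 : p ∈ C
  · have h2 : p + 1 ∉ C := fun h => hC p ⟨h1, h⟩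
    rw [if_pos h1, if_neg h2, add_sub_cancel_right, if_pos h1]
  · rw [if_neg h1]
    by_cases h2 : p - 1 ∈ C
    · rw [if_pos h2, if_pos h2, sub_add_cancel]
    · rw [if_neg h2, if_neg h1, if_neg h2]

open Classical in
theorem tau_window (C : Set (ZMod n)) (hC : ∀ c, ¬ (c ∈ C ∧ c + 1 ∈ C)) (k : ℕ) (hk : 2 ≤ k)
    (hn : 2 * k ≤ n) (f p : ZMod n) :
    tau C p ∈ pos f (range k) ↔ p ∈ pos f (wmod n k (f ∈ C) (f - (k : ZMod n) ∈ C)) := by
  rw [mem_pos, mem_pos, Finset.mem_range, wmod, Finset.mem_filter, Finset.mem_range]
  have hlt := ZMod.val_lt (f - p)
  have hcast : (((f - p).val : ℕ) : ZMod n) = f - p := ZMod.natCast_zmod_val _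
  have e0 : (f - p).val = 0 → p = f := by
    intro h
    rw [h, Nat.cast_zero] at hcast
    exact (sub_eq_zero.1 hcast.symm).symm
  have ek : (f - p).val = k → p = f - (k : ZMod n) := by
    intro h
    rw [h] at hcast
    rw [hcast]
    ring
  have ek1 : (f - p).val + 1 = k → p - 1 = f - (k : ZMod n) := by
    intro h
    rw [← h, Nat.cast_add, hcast]
    push_cast
    ring
  have en : (f - p).val + 1 = n → p - 1 = f := by
    intro h
    have h2 : (((f - p).val + 1 : ℕ) : ZMod n) = 0 := by rw [h, ZMod.natCast_self]
    rw [Nat.cast_add, hcast] at h2
    push_cast at h2
    have h3 : f = p - 1 := by linear_combination h2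
    exact h3.symm
  unfold tau
  by_cases h1 : p ∈ C
  · rw [if_pos h1]
    have h1' : f - (p + 1) = (f - p) - 1 := by ring
    rw [h1', val_sub_one' _ (by omega)]
    have h2 : p - 1 ∉ C := by
      intro h
      apply hC (p - 1)
      rw [sub_add_cancel]
      exact ⟨h, h1⟩
    by_cases c0 : (f - p).val = 0
    · have := e0 c0
      rw [this] at h1
      simp only [c0, h1]
      simp
      omega
    · by_cases ck : (f - p).val = k
      · have := ek ck
        rw [this] at h1
        rw [if_pos (by omega)]
        simp only [ck, h1]
        simp
        omega
      · by_cases ck1 : (f - p).val + 1 = k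
        · have := ek1 ck1
          rw [this] at h2
          rw [if_pos (by omega)]
          simp only [h2]
          simp only [false_and, not_false_eq_true, and_true, or_false]
          constructor
          · intro _
            exact ⟨hlt, Or.inl ⟨by omega, fun h => c0 h.2⟩⟩
          · intro _
            omega
        · by_cases cn : (f - p).val + 1 = n
          · have := en cn
            rw [this] at h2
            rw [if_pos (by omega)]
            simp only [h2]
            simp only [false_and, not_false_eq_true, true_and, false_or]
            constructor
            · intro h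
              omega
            · rintro ⟨-, h | h⟩
              · omega
              · omega
          · rw [if_pos (by omega)]
            constructor
            · intro h
              exact ⟨hlt, Or.inl ⟨by omega, fun h => c0 h.2, fun h => ck1 h.2⟩⟩
            · rintro ⟨-, h | h | h⟩
              · omega
              · exact absurd h.2 cn
              · exact absurd h.2 ck
  · rw [if_neg h1]
    by_cases h2 : p - 1 ∈ C
    · rw [if_pos h2]
      have h1' : f - (p - 1) = (f - p) + 1 := by ring
      rw [h1', val_add_one' _ (by omega)]
      by_cases c0 : (f - p).val = 0
      · have := e0 c0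
        rw [this] at h1
        rw [if_neg (by omega)]
        simp only [c0, h1]
        simp only [false_and, not_false_eq_true, true_and, false_or]
        constructor
        · intro _
          exact ⟨by omega, Or.inl ⟨by omega, fun h => by omega⟩⟩
        · intro _
          omega
      · by_cases ck : (f - p).val = k
        · have := ek ck
          rw [this] at h1
          rw [if_neg (by omega)]
          simp only [h1]
          simp only [false_and, not_false_eq_true, and_true, or_false]
          constructor
          · intro h
            omega
          · rintro ⟨-, h | h⟩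
            · omega
            · omega
        · by_cases ck1 : (f - p).val + 1 = k
          · have := ek1 ck1
            rw [this] at h2
            rw [if_neg (by omega)]
            simp only [h2]
            simp only [true_and]
            constructor
            · intro h
              omega
            · rintro ⟨-, h | h | h⟩
              · exact absurd ck1 h.2.2
              · omega
              · omega
          · by_cases cn : (f - p).val + 1 = n
            · have := en cn
              rw [this] at h2
              rw [if_pos cn]
              constructor
              · intro _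
                exact ⟨hlt, Or.inr (Or.inl ⟨h2, cn⟩)⟩
              · intro _
                omega
            · rw [if_neg cn]
              constructor
              · intro h
                exact ⟨hlt, Or.inl ⟨by omega, fun h => c0 h.2, fun h => ck1 h.2⟩⟩
              · rintro ⟨-, h | h | h⟩
                · omega
                · exact absurd h.2 cn
                · exact absurd h.2 ck
    · rw [if_neg h2]
      by_cases c0 : (f - p).val = 0
      · have := e0 c0
        rw [this] at h1
        simp only [c0, h1]
        simp only [false_and, not_false_eq_true, true_and, false_or]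
        constructor
        · intro _
          exact ⟨by omega, Or.inl ⟨by omega, fun h => by omega⟩⟩
        · intro _
          omega
      · by_cases ck : (f - p).val = k
        · have := ek ck
          rw [this] at h1
          simp only [h1]
          simp only [false_and, not_false_eq_true, and_true, or_false]
          constructor
          · intro h
            omega
          · rintro ⟨-, h | h⟩
            · omega
            · omega
        · by_cases ck1 : (f - p).val + 1 = k
          · have := ek1 ck1
            rw [this] at h2
            simp only [h2]
            simp only [false_and, not_false_eq_true, and_true, or_false]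
            constructor
            · intro _
              exact ⟨hlt, Or.inl ⟨by omega, fun h => c0 h.2⟩⟩
            · intro _
              omega
          · by_cases cn : (f - p).val + 1 = n
            · have := en cn
              rw [this] at h2
              simp only [h2]
              simp only [false_and, not_false_eq_true, true_and, false_or]
              constructor
              · intro h
                omega
              · rintro ⟨-, h | h⟩
                · omega
                · omega
            · constructor
              · intro h
                exact ⟨hlt, Or.inl ⟨by omega, fun h => c0 h.2, fun h => ck1 h.2⟩⟩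
              · rintro ⟨-, h | h | h⟩
                · omega
                · exact absurd h.2 cn
                · exact absurd h.2 ck

open Classical in
/-- the windows of the modified order -/
theorem tau_image (C : Set (ZMod n)) (hC : ∀ c, ¬ (c ∈ C ∧ c + 1 ∈ C)) (k : ℕ) (hk : 2 ≤ k)
    (hn : 2 * k ≤ n) (f : ZMod n) (σ : ZMod n ≃ V) :
    (pos f (range k)).image (((tau_invol C hC).toPerm).trans σ) =
      (pos f (wmod n k (f ∈ C) (f - (k : ZMod n) ∈ C))).image σ := by
  ext v
  rw [Finset.mem_image, Finset.mem_image]
  constructor
  · rintro ⟨p, hp, rfl⟩
    refine ⟨tau C p, ?_, rfl⟩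
    rw [← tau_window C hC k hk hn, tau_invol C hC p]
    exact hp
  · rintro ⟨p, hp, rfl⟩
    refine ⟨tau C p, (tau_window C hC k hk hn f p).2 hp, ?_⟩
    change σ (tau C (tau C p)) = σ p
    rw [tau_invol C hC p]

end Shift

end Pool.Agent.Helper88_Tight
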