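import Pool.Agent.Helper88_Tight.Large

/-!
# Tight Hamilton cycles for `n = 2 k` and `n = 2 k + 1`
-/

namespace Pool.Agent.Helper88_Tight

set_option linter.unusedSectionVars false

open Finset

variable {V : Type} [DecidableEq V] [Fintype V]

section Small

variable {n : ℕ} [NeZero n]

theorem pos_insert (f : ZMod n) (u : ℕ) (hu : u < n) (U : Finset ℕ) :
    pos f (insert u U) = insert (f - (u : ZMod n)) (pos f U) := by
  ext p
  rw [mem_pos, Finset.mem_insert, Finset.mem_insert, mem_pos]
  constructor
  · rintro (h | h)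
    · left
      rw [← h, ZMod.natCast_zmod_val, sub_sub_cancel]
    · exact Or.inr h
  · rintro (h | h)
    · left
      rw [h, sub_sub_cancel, ZMod.val_cast_of_lt hu]
    · exact Or.inr h

/-- two bad sets never share `k - 1` elements -/
theorem no_two (B : Finset (Finset V)) (k : ℕ) (hB : Cod B k 1) (f : ZMod n) (U : Finset ℕ)
    (hU : U ⊆ range n) (hc : U.card + 1 = k) (u w : ℕ) (hu : u < n) (hw : w < n) (huU : u ∉ U)
    (hwU : w ∉ U) (huw : u ≠ w) (σ : ZMod n ≃ V) (h1 : (pos f (insert u U)).image σ ∈ B)
    (h2 : (pos f (insert w U)).image σ ∈ B) : False := by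
  rw [pos_insert f u hu, Finset.image_insert] at h1
  rw [pos_insert f w hw, Finset.image_insert] at h2
  have hS : ((pos f U).image σ).card + 1 = k := by
    rw [Finset.card_image_of_injective _ σ.injective, card_pos f hU, hc]
  have h3 := hB _ hS
  have hmem : ∀ x, x < n → x ∉ U → σ (f - (x : ZMod n)) ∉ (pos f U).image σ := by
    intro x hx hxU h
    obtain ⟨p, hp, hpx⟩ := Finset.mem_image.1 h
    have := σ.injective hpx
    rw [this, mem_pos, sub_sub_cancel, ZMod.val_cast_of_lt hx] at hp
    exact hxU hp
  have hne : σ (f - (u : ZMod n)) ≠ σ (f - (w : ZMod n)) := by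
    intro h
    have h4 := sub_right_injective (σ.injective h)
    have h5 := congrArg ZMod.val h4
    rw [ZMod.val_cast_of_lt hu, ZMod.val_cast_of_lt hw] at h5
    exact huw h5
  have h6 : ({σ (f - (u : ZMod n)), σ (f - (w : ZMod n))} : Finset V) ⊆
      univ.filter fun v => v ∉ (pos f U).image σ ∧ insert v ((pos f U).image σ) ∈ B := by
    intro v hv
    rw [Finset.mem_insert, Finset.mem_singleton] at hv
    rw [Finset.mem_filter]
    rcases hv with rfl | rfl
    · exact ⟨Finset.mem_univ _, hmem u hu huU, h1⟩
    · exact ⟨Finset.mem_univ _, hmem w hw hwU, h2⟩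
  have h7 := (Finset.card_le_card h6).trans h3
  rw [Finset.card_pair hne] at h7
  omega

theorem exists_few (B : Finset (Finset V)) (k : ℕ) (G : ZMod n → Finset (ZMod n ≃ V))
    (hsum : ∑ f : ZMod n, ((Ev B f (range k)).card + (G f).card) <
      2 * (univ : Finset (ZMod n ≃ V)).card) :
    ∃ σ : ZMod n ≃ V, (univ.filter fun f => σ ∈ Ev B f (range k)).card +
      (univ.filter fun f => σ ∈ G f).card ≤ 1 := by
  classical
  by_contra hcon
  push Not at hcon
  have h1 : ∀ F : ZMod n → Finset (ZMod n ≃ V),
      ∑ σ : ZMod n ≃ V, (univ.filter fun f => σ ∈ F f).card = ∑ f : ZMod n, (F f).card := by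
    intro F
    simp only [Finset.card_filter]
    rw [Finset.sum_comm]
    refine Finset.sum_congr rfl fun f _ => ?_
    rw [← Finset.card_filter]
    congr 1
    ext σ
    simp
  have h2 : ∑ _σ : ZMod n ≃ V, 2 ≤ ∑ σ : ZMod n ≃ V,
      ((univ.filter fun f => σ ∈ Ev B f (range k)).card + (univ.filter fun f => σ ∈ G f).card) := by
    refine Finset.sum_le_sum fun σ _ => ?_
    exact hcon σ
  rw [Finset.sum_add_distrib, h1, h1, ← Finset.sum_add_distrib, Finset.sum_const, smul_eq_mul]
    at h2
  omega

/-- the common part of the two small cases -/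
theorem small_core (B : Finset (Finset V)) (k : ℕ) (hB : Cod B k 1) (hk : 3 ≤ k) (hn : 2 * k ≤ n)
    (G : ZMod n → Finset (ZMod n ≃ V))
    (hsum : ∑ f : ZMod n, ((Ev B f (range k)).card + (G f).card) <
      2 * (univ : Finset (ZMod n ≃ V)).card)
    (hG : ∀ (f : ZMod n) (σ : ZMod n ≃ V), (pos f (range k)).image σ ∈ B →
      (pos (f + (k : ZMod n)) (W01 k)).image σ ∈ B →
      (pos (f - (k : ZMod n)) (W10 n k)).image σ ∈ B → σ ∈ G f) :
    ∃ σ : ZMod n ≃ V, ∀ f : ZMod n, (pos f (range k)).image σ ∉ B := by
  obtain ⟨σ, hσ⟩ := exists_few B k G hsum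
  by_cases h0 : ∀ f : ZMod n, (pos f (range k)).image σ ∉ B
  · exact ⟨σ, h0⟩
  push Not at h0
  obtain ⟨f, hf⟩ := h0
  have hkn0 : (k : ZMod n) ≠ 0 := by
    intro h
    have := congrArg ZMod.val h
    rw [ZMod.val_cast_of_lt (by omega), ZMod.val_zero] at this
    omega
  have h10 : (1 : ZMod n) ≠ 0 := by
    intro h
    have h' : ((1 : ℕ) : ZMod n) = 0 := by rw [Nat.cast_one]; exact h
    have := congrArg ZMod.val h'
    rw [ZMod.val_cast_of_lt (by omega), ZMod.val_zero] at this
    omega
  have hfm : f ∈ univ.filter fun f => σ ∈ Ev B f (range k) := by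
    rw [Finset.mem_filter, mem_Ev]
    exact ⟨Finset.mem_univ _, hf⟩
  have hothers : ∀ g, g ≠ f → (pos g (range k)).image σ ∉ B := by
    intro g hg h
    have hgm : g ∈ univ.filter fun f => σ ∈ Ev B f (range k) := by
      rw [Finset.mem_filter, mem_Ev]
      exact ⟨Finset.mem_univ _, h⟩
    have : 1 < (univ.filter fun f => σ ∈ Ev B f (range k)).card :=
      Finset.one_lt_card.2 ⟨g, hgm, f, hfm, hg⟩
    omega
  have hGn : σ ∉ G f := by
    intro h
    have h1 : 0 < (univ.filter fun f => σ ∈ Ev B f (range k)).card :=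
      Finset.card_pos.2 ⟨f, hfm⟩
    have h2 : 0 < (univ.filter fun f => σ ∈ G f).card := by
      refine Finset.card_pos.2 ⟨f, ?_⟩
      rw [Finset.mem_filter]
      exact ⟨Finset.mem_univ _, h⟩
    omega
  have hCs : ∀ c0 : ZMod n, ∀ c, ¬ (c ∈ ({c0} : Set (ZMod n)) ∧ c + 1 ∈ ({c0} : Set (ZMod n))) := by
    intro c0 c h
    rw [Set.mem_singleton_iff, Set.mem_singleton_iff] at h
    apply h10
    have := h.2
    rw [h.1] at this
    simpa using this
  have e1 : range k = insert 0 (Ico 1 k) := by
    ext x
    rw [Finset.mem_range, Finset.mem_insert, Finset.mem_Ico]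
    omega
  have e2 : range k = insert (k - 1) (range (k - 1)) := by
    ext x
    rw [Finset.mem_range, Finset.mem_insert, Finset.mem_range]
    omega
  have hW10 : (pos f (W10 n k)).image σ ∉ B := by
    intro h
    rw [e1] at hf
    refine no_two B k hB f (Ico 1 k) ?_ ?_ 0 (n - 1) (by omega) (by omega) ?_ ?_ (by omega) σ hf h
    · intro x hx
      rw [Finset.mem_Ico] at hx
      rw [Finset.mem_range]
      omega
    · rw [Nat.card_Ico]
      omega
    · rw [Finset.mem_Ico]
      omega
    · rw [Finset.mem_Ico]
      omega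
  have hW01 : (pos f (W01 k)).image σ ∉ B := by
    intro h
    rw [e2] at hf
    refine no_two B k hB f (range (k - 1)) ?_ ?_ (k - 1) k (by omega) (by omega) ?_ ?_ (by omega)
      σ hf h
    · intro x hx
      rw [Finset.mem_range] at hx ⊢
      omega
    · rw [Finset.card_range]
      omega
    · rw [Finset.mem_range]
      omega
    · rw [Finset.mem_range]
      omega
  by_cases hR : (pos (f + (k : ZMod n)) (W01 k)).image σ ∈ B
  · have hL : (pos (f - (k : ZMod n)) (W10 n k)).image σ ∉ B := fun h => hGn (hG f σ hf hR h)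
    refine ⟨((tau_invol _ (hCs (f - (k : ZMod n)))).toPerm).trans σ, fun g => ?_⟩
    refine tau_good B k (by omega) hn _ (hCs (f - (k : ZMod n))) g σ ?_ ?_ ?_ ?_
    · intro h1 h2
      exfalso
      rw [Set.mem_singleton_iff] at h1 h2
      rw [h1] at h2
      exact hkn0 (by simpa using h2)
    · intro h1 _
      rw [Set.mem_singleton_iff] at h1
      rw [h1]
      exact hL
    · intro _ h2
      rw [Set.mem_singleton_iff] at h2
      have : g = f := by simpa using h2
      rw [this]
      exact hW01
    · intro _ h2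
      rw [Set.mem_singleton_iff] at h2
      apply hothers
      rintro rfl
      exact h2 rfl
  · refine ⟨((tau_invol _ (hCs f)).toPerm).trans σ, fun g => ?_⟩
    refine tau_good B k (by omega) hn _ (hCs f) g σ ?_ ?_ ?_ ?_
    · intro h1 h2
      exfalso
      rw [Set.mem_singleton_iff] at h1 h2
      rw [h1] at h2
      exact hkn0 (by simpa using h2)
    · intro h1 _
      rw [Set.mem_singleton_iff] at h1
      rw [h1]
      exact hW10
    · intro _ h2
      rw [Set.mem_singleton_iff] at h2
      have : g = f + (k : ZMod n) := by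
        rw [← h2]
        ring
      rw [this]
      exact hR
    · intro h1 _
      rw [Set.mem_singleton_iff] at h1
      exact hothers g h1

end Small

theorem ev_card_one {n : ℕ} [NeZero n] (B : Finset (Finset V)) (k : ℕ) (hB : Cod B k 1)
    (hk : 3 ≤ k) (hn : 2 * k ≤ n) (f : ZMod n) :
    (Ev B f (range k) : Finset (ZMod n ≃ V)).card * (n - k + 1) ≤
      (univ : Finset (ZMod n ≃ V)).card := by
  have := ev_single B k 1 (by omega) (by omega) hB f (range k)
    (by
      intro x hx
      rw [Finset.mem_range] at hx ⊢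
      omega) (Finset.card_range k)
  rwa [mul_one] at this

theorem univ_pos {n : ℕ} [NeZero n] (hV : Fintype.card V = n) :
    0 < (univ : Finset (ZMod n ≃ V)).card := by
  rw [Finset.card_pos, Finset.univ_nonempty_iff]
  exact Fintype.card_eq.1 (by rw [ZMod.card, hV])

theorem small_odd (k : ℕ) (hk : 3 ≤ k) [NeZero (2 * k + 1)] (B : Finset (Finset V))
    (hB : Cod B k 1) (hV : Fintype.card V = 2 * k + 1) :
    ∃ σ : ZMod (2 * k + 1) ≃ V, ∀ f : ZMod (2 * k + 1), (pos f (range k)).image σ ∉ B := by
  have hN := univ_pos hV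
  set N := (univ : Finset (ZMod (2 * k + 1) ≃ V)).card with hNdef
  refine small_core B k hB hk (by omega) (fun _ => ∅) ?_ ?_
  · have h1 : ∀ f : ZMod (2 * k + 1), (Ev B f (range k) : Finset (ZMod (2 * k + 1) ≃ V)).card *
        (k + 2) ≤ N := by
      intro f
      have := ev_card_one B k hB hk (by omega) f
      have e : 2 * k + 1 - k + 1 = k + 2 := by omega
      rwa [e] at this
    have h2 : (∑ f : ZMod (2 * k + 1), ((Ev B f (range k) : Finset (ZMod (2 * k + 1) ≃ V)).card +
        (∅ : Finset (ZMod (2 * k + 1) ≃ V)).card)) * (k + 2) ≤ (2 * k + 1) * N := by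
      rw [Finset.sum_mul]
      calc ∑ f : ZMod (2 * k + 1), ((Ev B f (range k) : Finset (ZMod (2 * k + 1) ≃ V)).card +
            (∅ : Finset (ZMod (2 * k + 1) ≃ V)).card) * (k + 2)
          ≤ ∑ _f : ZMod (2 * k + 1), N := by
            refine Finset.sum_le_sum fun f _ => ?_
            rw [Finset.card_empty, add_zero]
            exact h1 f
        _ = (2 * k + 1) * N := by
            rw [Finset.sum_const, Finset.card_univ, ZMod.card, smul_eq_mul]
    have h3 : (2 * k + 1) * N < 2 * N * (k + 2) := by nlinarith
    exact lt_of_mul_lt_mul_right (h2.trans_lt h3) (Nat.zero_le _)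
  · intro f σ _ h1 h2
    exfalso
    have e : pos (f - (k : ZMod (2 * k + 1))) (W10 (2 * k + 1) k) =
        pos (f + (k : ZMod (2 * k + 1))) (insert (2 * k - 1) (range (k - 1))) := by
      ext p
      rw [mem_pos, mem_pos]
      have e1 : f - (k : ZMod (2 * k + 1)) - p =
          (f + (k : ZMod (2 * k + 1)) - p) - ((2 * k : ℕ) : ZMod (2 * k + 1)) := by
        push_cast
        ring
      rw [e1, val_sub_nat _ (2 * k) (by omega), W10, Finset.mem_insert, Finset.mem_Ico,
        Finset.mem_insert, Finset.mem_range]
      have := ZMod.val_lt (f + (k : ZMod (2 * k + 1)) - p)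
      split_ifs <;> omega
    rw [e] at h2
    refine no_two B k hB (f + (k : ZMod (2 * k + 1))) (range (k - 1)) ?_ ?_ k (2 * k - 1)
      (by omega) (by omega) ?_ ?_ (by omega) σ h1 h2
    · intro x hx
      rw [Finset.mem_range] at hx ⊢
      omega
    · rw [Finset.card_range]
      omega
    · rw [Finset.mem_range]
      omega
    · rw [Finset.mem_range]
      omega

theorem small_even (k : ℕ) (hk : 3 ≤ k) [NeZero (2 * k)] (B : Finset (Finset V))
    (hB : Cod B k 1) (hV : Fintype.card V = 2 * k) :
    ∃ σ : ZMod (2 * k) ≃ V, ∀ f : ZMod (2 * k), (pos f (range k)).image σ ∉ B := by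
  have hN := univ_pos hV
  set N := (univ : Finset (ZMod (2 * k) ≃ V)).card with hNdef
  set Y2 : ZMod (2 * k) → Finset (ZMod (2 * k) ≃ V) := fun f =>
    Bad2 B f (range k) (insert 0 (Ico k (2 * k - 1))) with hY2
  set G : ZMod (2 * k) → Finset (ZMod (2 * k) ≃ V) := fun f =>
    (Y2 f).filter fun σ : ZMod (2 * k) ≃ V =>
      (pos f (insert (k - 1) (Ico (k + 1) (2 * k)))).image σ ∈ B with hGdef
  refine small_core B k hB hk (by omega) G ?_ ?_
  · have h1 : ∀ f : ZMod (2 * k), (Ev B f (range k) : Finset (ZMod (2 * k) ≃ V)).card *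
        (k + 1) ≤ N := by
      intro f
      have := ev_card_one B k hB hk (by omega) f
      have e : 2 * k - k + 1 = k + 1 := by omega
      rwa [e] at this
    have h2 : ∀ f : ZMod (2 * k), (Y2 f).card * k ≤
        (Ev B f (range k) : Finset (ZMod (2 * k) ≃ V)).card := by
      intro f
      have h := bad2_count B k 1 hB f (range k) (insert 0 (Ico k (2 * k - 1))) (range k) 0
        (by
          intro x hx
          rw [Finset.mem_insert, Finset.mem_Ico] at hx
          rw [Finset.mem_range]
          omega)
        (by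
          intro x hx
          rw [Finset.mem_range] at hx ⊢
          omega)
        (Finset.mem_insert_self _ _)
        (by
          rw [Finset.card_insert_of_notMem, Nat.card_Ico]
          · omega
          · rw [Finset.mem_Ico]
            omega)
        (by
          intro r hr
          rw [Finset.mem_range] at hr
          rw [Finset.mem_insert, Finset.mem_Ico]
          omega)
        (by
          intro r hr
          rw [Finset.mem_range] at hr
          rw [Finset.mem_range, Finset.mem_range]
          omega)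
      rwa [Finset.card_range, mul_one] at h
    have h3 : ∀ f : ZMod (2 * k), (G f).card * (k - 1) ≤ (Y2 f).card := by
      intro f
      have h := ev_count B k 1 hB f (Y2 f) (insert (k - 1) (Ico (k + 1) (2 * k))) (Ico 1 k) (k - 1)
        (by
          intro x hx
          rw [Finset.mem_insert, Finset.mem_Ico] at hx
          rw [Finset.mem_range]
          omega)
        (by
          intro x hx
          rw [Finset.mem_Ico] at hx
          rw [Finset.mem_range]
          omega)
        (Finset.mem_insert_self _ _)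
        (by
          rw [Finset.card_insert_of_notMem, Nat.card_Ico]
          · omega
          · rw [Finset.mem_Ico]
            omega)
        (by
          intro r hr
          rw [Finset.mem_Ico] at hr
          rw [Finset.mem_insert, Finset.mem_Ico]
          omega)
        (by
          intro σ hσ r hr
          rw [Finset.mem_Ico] at hr
          rw [hY2, mem_Bad2] at hσ ⊢
          constructor
          · have := swap_mem_Ev (B := B) (f := f) (U := range k) (k - 1) r (by omega) (by omega)
              (by
                rw [Finset.mem_range, Finset.mem_range]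
                omega) σ (mem_Ev.2 hσ.1)
            exact mem_Ev.1 this
          · have := swap_mem_Ev (B := B) (f := f) (U := insert 0 (Ico k (2 * k - 1))) (k - 1) r
              (by omega) (by omega)
              (by
                rw [Finset.mem_insert, Finset.mem_insert, Finset.mem_Ico, Finset.mem_Ico]
                omega) σ (mem_Ev.2 hσ.2)
            exact mem_Ev.1 this)
      rwa [Nat.card_Ico, mul_one] at h
    obtain ⟨j, rfl⟩ : ∃ j, k = j + 1 := ⟨k - 1, by omega⟩
    have e : j + 1 - 1 = j := rfl
    have h4 : ∀ f : ZMod (2 * (j + 1)), ((Ev B f (range (j + 1)) :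
        Finset (ZMod (2 * (j + 1)) ≃ V)).card + (G f).card) * ((j + 2) * ((j + 1) * j)) ≤
        N * ((j + 1) * j + 1) := by
      intro f
      have a1 := h1 f
      have a2 := h2 f
      have a3 := h3 f
      rw [e] at a3
      set y := (Ev B f (range (j + 1)) : Finset (ZMod (2 * (j + 1)) ≃ V)).card
      have b1 : y * ((j + 2) * ((j + 1) * j)) ≤ N * ((j + 1) * j) := by
        calc y * ((j + 2) * ((j + 1) * j)) = (y * (j + 1 + 1)) * ((j + 1) * j) := by ring
          _ ≤ N * ((j + 1) * j) := Nat.mul_le_mul_right _ a1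
      have b2 : (G f).card * ((j + 2) * ((j + 1) * j)) ≤ N := by
        calc (G f).card * ((j + 2) * ((j + 1) * j)) = ((G f).card * j) * (j + 1) * (j + 2) := by ring
          _ ≤ (Y2 f).card * (j + 1) * (j + 2) :=
              Nat.mul_le_mul_right _ (Nat.mul_le_mul_right _ a3)
          _ ≤ y * (j + 2) := Nat.mul_le_mul_right _ a2
          _ ≤ N := a1
      calc (y + (G f).card) * ((j + 2) * ((j + 1) * j)) =
            y * ((j + 2) * ((j + 1) * j)) + (G f).card * ((j + 2) * ((j + 1) * j)) := by ring
        _ ≤ N * ((j + 1) * j) + N := Nat.add_le_add b1 b2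
        _ = N * ((j + 1) * j + 1) := by ring
    have h5 : (∑ f : ZMod (2 * (j + 1)), ((Ev B f (range (j + 1)) :
        Finset (ZMod (2 * (j + 1)) ≃ V)).card + (G f).card)) * ((j + 2) * ((j + 1) * j)) ≤
        (2 * (j + 1)) * (N * ((j + 1) * j + 1)) := by
      rw [Finset.sum_mul]
      calc _ ≤ ∑ _f : ZMod (2 * (j + 1)), N * ((j + 1) * j + 1) :=
            Finset.sum_le_sum fun f _ => h4 f
        _ = _ := by rw [Finset.sum_const, Finset.card_univ, ZMod.card, smul_eq_mul]
    have h6 : (2 * (j + 1)) * (N * ((j + 1) * j + 1)) < 2 * N * ((j + 2) * ((j + 1) * j)) := by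
      have h7 : (j + 1) * j + 1 < (j + 2) * j := by nlinarith
      calc (2 * (j + 1)) * (N * ((j + 1) * j + 1)) = (2 * N * (j + 1)) * ((j + 1) * j + 1) := by
            ring
        _ < (2 * N * (j + 1)) * ((j + 2) * j) := by
            apply Nat.mul_lt_mul_of_pos_left h7
            positivity
        _ = 2 * N * ((j + 2) * ((j + 1) * j)) := by ring
    exact lt_of_mul_lt_mul_right (h5.trans_lt h6) (Nat.zero_le _)
  · intro f σ h0 h1 h2
    have hkk : (k : ZMod (2 * k)) + (k : ZMod (2 * k)) = 0 := by
      have : ((2 * k : ℕ) : ZMod (2 * k)) = 0 := ZMod.natCast_self _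
      push_cast at this
      linear_combination this
    have e1 : pos (f + (k : ZMod (2 * k))) (W01 k) = pos f (insert 0 (Ico k (2 * k - 1))) := by
      ext p
      rw [mem_pos, mem_pos]
      have e1 : f + (k : ZMod (2 * k)) - p = (f - p) - (k : ZMod (2 * k)) := by
        linear_combination hkk
      rw [e1, val_sub_nat _ k (by omega), W01, Finset.mem_insert, Finset.mem_range,
        Finset.mem_insert, Finset.mem_Ico]
      have := ZMod.val_lt (f - p)
      split_ifs <;> omega
    have e2 : pos (f - (k : ZMod (2 * k))) (W10 (2 * k) k) =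
        pos f (insert (k - 1) (Ico (k + 1) (2 * k))) := by
      ext p
      rw [mem_pos, mem_pos]
      have e1 : f - (k : ZMod (2 * k)) - p = (f - p) - (k : ZMod (2 * k)) := by ring
      rw [e1, val_sub_nat _ k (by omega), W10, Finset.mem_insert, Finset.mem_Ico,
        Finset.mem_insert, Finset.mem_Ico]
      have := ZMod.val_lt (f - p)
      split_ifs <;> omega
    rw [hGdef, Finset.mem_filter, hY2, mem_Bad2, ← e1, ← e2]
    exact ⟨⟨h0, h1⟩, h2⟩

end Pool.Agent.Helper88_Tight
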